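import Mathlib
import Pool.Agent.H658.PD.Tensor

set_option autoImplicit false

/-!
Tensor products of the Poisson algebras `k[x, y, z] / (Ω - ξ)`, for homogeneous potentials `Ω`
with isolated singularity of degree at least `4`, have only finitely many Poisson automorphisms.
-/

namespace Pool.Agent.Results.MP_d88b0b_al.FiniteAut

open H658PD

theorem result {k : Type*} [Field k] [CharZero k] {n : ℕ}
    (Ω : Fin n → MvPolynomial (Fin 3) k) (deg : Fin n → ℕ)
    (hhom : ∀ i, (Ω i).IsHomogeneous (deg i)) (hdeg : ∀ i, 4 ≤ deg i)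
    (his : ∀ i, IsIS (Ω i)) (ξ : Fin n → k) :
    ∃ B : TP Ω ξ → TP Ω ξ → TP Ω ξ, IsTensorBracket Ω ξ B ∧
      (∀ B', IsTensorBracket Ω ξ B' → B' = B) ∧
      {φ : TP Ω ξ ≃ₐ[k] TP Ω ξ | PreservesBr B φ}.Finite :=
  ⟨B0 Ω ξ, B0_spec Ω ξ, fun _ h => IsTensorBracket.unique Ω ξ h (B0_spec Ω ξ),
    tensor_finite hhom hdeg his (B0_spec Ω ξ)⟩

end Pool.Agent.Results.MP_d88b0b_al.FiniteAut
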